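import Pool.Agent.Helper65.LT.Pa

/-!
PROJECT LT (MP_274814), block F4-F6, piece P1: the parameter integral `gg` is differentiable and
satisfies its differential equation.
-/

namespace Pool.Agent.Helper21.LT

open Pool.Agent.Helper34.LT Pool.Agent.Helper65.LT
open Finset Complex Filter Topology MeasureTheory

theorem P1_slit {z : ℂ} (hz : z ∈ D0) {r : ℝ} (h0 : 0 ≤ r) (h1 : r ≤ 1) :
    1 - (r : ℂ) * z ∈ slitPlane := by
  have h := Complex.starConvex_one_slitPlane (show 1 - z ∈ slitPlane from hz)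
    (sub_nonneg.2 h1) h0 (by ring)
  have h2 : (1 - r) • (1 : ℂ) + r • (1 - z) = 1 - (r : ℂ) * z := by
    rw [Complex.real_smul, Complex.real_smul]
    push_cast
    ring
  rwa [h2] at h

theorem P1_cont {x : ℂ} (hx : x ∈ D0) (c : ℂ) :
    ContinuousOn (fun r : ℝ => (1 - (r : ℂ) * x) ^ c) (Set.uIcc (0 : ℝ) 1) := by
  intro r hr
  rw [Set.uIcc_of_le zero_le_one] at hr
  have h := P1_slit hx hr.1 hr.2
  refine ContinuousAt.continuousWithinAt ?_
  exact ContinuousAt.cpow (by fun_prop) continuousAt_const h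

theorem P1_bound {x : ℂ} {ε : ℝ} (hε : Metric.closedBall x ε ⊆ D0) (c : ℂ) :
    ∃ M : ℝ, ∀ r ∈ Set.Icc (0 : ℝ) 1, ∀ z ∈ Metric.closedBall x ε, ‖(1 - (r : ℂ) * z) ^ c‖ ≤ M := by
  have hK : IsCompact (Set.Icc (0 : ℝ) 1 ×ˢ Metric.closedBall x ε) :=
    isCompact_Icc.prod (isCompact_closedBall x ε)
  have hf : ContinuousOn (fun p : ℝ × ℂ => (1 - (p.1 : ℂ) * p.2) ^ c)
      (Set.Icc (0 : ℝ) 1 ×ˢ Metric.closedBall x ε) := by
    intro p hp
    have h := P1_slit (hε hp.2) hp.1.1 hp.1.2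
    refine ContinuousAt.continuousWithinAt ?_
    exact ContinuousAt.cpow (by fun_prop) continuousAt_const h
  obtain ⟨M, hM⟩ := hK.exists_bound_of_continuousOn hf
  exact ⟨M, fun r hr z hz => hM (r, z) ⟨hr, hz⟩⟩

theorem gg_hasDerivAt' {α β : ℝ} (hα : 0 < α) {x : ℂ} (hx : x ∈ D0) :
    ∃ d : ℂ, HasDerivAt (gg α β) d x ∧ (α:ℂ) * gg α β x + x * d = (1 - x) ^ ((β:ℂ) - 1) := by
  have hopen : IsOpen D0 := isOpen_D0
  obtain ⟨ε, hε0, hε⟩ := Metric.nhds_basis_closedBall.mem_iff.1 (hopen.mem_nhds hx)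
  obtain ⟨M, hM⟩ := P1_bound hε ((β : ℂ) - 1 - 1)
  let F : ℂ → ℝ → ℂ := fun z r => (r:ℂ) ^ ((α:ℂ) - 1) * (1 - (r:ℂ) * z) ^ ((β:ℂ) - 1)
  let F' : ℂ → ℝ → ℂ := fun z r =>
    (r:ℂ) ^ ((α:ℂ) - 1) * (((β:ℂ) - 1) * (1 - (r:ℂ) * z) ^ ((β:ℂ) - 1 - 1) * (-(r:ℂ)))
  have hre : -1 < ((α : ℂ) - 1).re := by
    rw [Complex.sub_re, Complex.ofReal_re, Complex.one_re]
    linarith
  have hint : IntervalIntegrable (fun r : ℝ => (r:ℂ) ^ ((α:ℂ) - 1)) volume 0 1 :=
    intervalIntegral.intervalIntegrable_cpow' hre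
  have hF : ∀ z ∈ D0, IntervalIntegrable (F z) volume 0 1 := fun z hz =>
    hint.mul_continuousOn (P1_cont hz _)
  have hF' : ∀ z ∈ D0, IntervalIntegrable (F' z) volume 0 1 := fun z hz =>
    hint.mul_continuousOn (((continuousOn_const.mul (P1_cont hz _))).mul (by fun_prop))
  have hmain := intervalIntegral.hasDerivAt_integral_of_dominated_loc_of_deriv_le
    (μ := volume) (a := 0) (b := 1) (F := F) (F' := F') (x₀ := x)
    (s := Metric.closedBall x ε) (bound := fun r => r ^ (α - 1) * (‖(β:ℂ) - 1‖ * M * 1))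
    (Metric.closedBall_mem_nhds x hε0)
    (by
      filter_upwards [hopen.mem_nhds hx] with z hz
      exact (intervalIntegrable_iff.1 (hF z hz)).aestronglyMeasurable)
    (hF x hx)
    (intervalIntegrable_iff.1 (hF' x hx)).aestronglyMeasurable
    (by
      refine Filter.Eventually.of_forall fun r hr z hz => ?_
      rw [Set.uIoc_of_le zero_le_one] at hr
      have h1 := hM r ⟨hr.1.le, hr.2⟩ z hz
      have h2 : ‖(r:ℂ) ^ ((α:ℂ) - 1)‖ = r ^ (α - 1) := by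
        rw [Complex.norm_cpow_eq_rpow_re_of_pos hr.1]
        congr 1
      have h3 : ‖-(r:ℂ)‖ ≤ 1 := by
        rw [norm_neg, Complex.norm_real, Real.norm_eq_abs, abs_of_pos hr.1]
        exact hr.2
      change ‖(r:ℂ) ^ ((α:ℂ) - 1) * (((β:ℂ) - 1) * (1 - (r:ℂ) * z) ^ ((β:ℂ) - 1 - 1) * (-(r:ℂ)))‖ ≤ _
      rw [norm_mul, norm_mul, norm_mul, h2]
      have h4 : 0 ≤ r ^ (α - 1) := Real.rpow_nonneg hr.1.le _
      refine mul_le_mul_of_nonneg_left ?_ h4
      refine mul_le_mul (mul_le_mul_of_nonneg_left h1 (norm_nonneg _)) h3 (norm_nonneg _) ?_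
      exact mul_nonneg (norm_nonneg _) ((norm_nonneg _).trans h1))
    ((intervalIntegral.intervalIntegrable_rpow' (by linarith)).mul_const _)
    (by
      refine Filter.Eventually.of_forall fun r hr z hz => ?_
      rw [Set.uIoc_of_le zero_le_one] at hr
      have h1 := P1_slit (hε hz) hr.1.le hr.2
      have h2 : HasDerivAt (fun z : ℂ => 1 - (r:ℂ) * z) (-(r:ℂ)) z := by
        have h3 := ((hasDerivAt_id z).const_mul (r:ℂ)).const_sub 1
        rwa [mul_one] at h3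
      have h4 := (h2.cpow_const (c := (β:ℂ) - 1) h1).const_mul ((r:ℂ) ^ ((α:ℂ) - 1))
      exact h4)
  refine ⟨∫ r in (0:ℝ)..1, F' x r, hmain.2, ?_⟩
  have hFTC : ∫ r in (0:ℝ)..1, ((α:ℂ) * F x r + x * F' x r) =
      (fun r : ℝ => (r:ℂ) ^ (α:ℂ) * (1 - (r:ℂ) * x) ^ ((β:ℂ) - 1)) 1 -
      (fun r : ℝ => (r:ℂ) ^ (α:ℂ) * (1 - (r:ℂ) * x) ^ ((β:ℂ) - 1)) 0 := by
    refine intervalIntegral.integral_eq_sub_of_hasDerivAt_of_le
      (f := fun r : ℝ => (r:ℂ) ^ (α:ℂ) * (1 - (r:ℂ) * x) ^ ((β:ℂ) - 1))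
      (f' := fun r : ℝ => (α:ℂ) * F x r + x * F' x r) zero_le_one ?_ ?_ ?_
    · have h1 : Continuous fun r : ℝ => (r:ℂ) ^ (α:ℂ) :=
        Complex.continuous_ofReal_cpow_const (by rw [Complex.ofReal_re]; exact hα)
      have h2 := P1_cont hx ((β:ℂ) - 1)
      rw [Set.uIcc_of_le zero_le_one] at h2
      exact h1.continuousOn.mul h2
    · intro r hr
      have h1 := P1_slit hx hr.1.le hr.2.le
      have hr0 : (r:ℂ) ∈ slitPlane := Complex.ofReal_mem_slitPlane.2 hr.1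
      have hr1 : (r:ℂ) ≠ 0 := Complex.ofReal_ne_zero.2 hr.1.ne'
      have h2 : HasDerivAt (fun w : ℂ => 1 - w * x) (-x) (r:ℂ) := by
        have h3 := ((hasDerivAt_id (r:ℂ)).mul_const x).const_sub 1
        rwa [one_mul] at h3
      have h3 := h2.cpow_const (c := (β:ℂ) - 1) h1
      have h4 := (hasDerivAt_id (r:ℂ)).cpow_const (c := (α:ℂ)) hr0
      have h5 := (h4.mul h3).comp_ofReal
      refine h5.congr_deriv ?_
      have h6 : (r:ℂ) ^ (α:ℂ) = (r:ℂ) ^ ((α:ℂ) - 1) * r := by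
        rw [Complex.cpow_sub _ _ hr1, Complex.cpow_one]
        field_simp
      change _ = (α:ℂ) * ((r:ℂ) ^ ((α:ℂ) - 1) * (1 - (r:ℂ) * x) ^ ((β:ℂ) - 1)) + x *
        ((r:ℂ) ^ ((α:ℂ) - 1) * (((β:ℂ) - 1) * (1 - (r:ℂ) * x) ^ ((β:ℂ) - 1 - 1) * (-(r:ℂ))))
      simp only [id]
      rw [h6]
      ring
    · exact ((hF x hx).const_mul _).add ((hF' x hx).const_mul _)
  have hsplit : ∫ r in (0:ℝ)..1, ((α:ℂ) * F x r + x * F' x r) =
      (α:ℂ) * gg α β x + x * ∫ r in (0:ℝ)..1, F' x r := by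
    rw [intervalIntegral.integral_add ((hF x hx).const_mul _) ((hF' x hx).const_mul _),
      intervalIntegral.integral_const_mul, intervalIntegral.integral_const_mul]
    rfl
  rw [← hsplit, hFTC]
  have h0 : (α:ℂ) ≠ 0 := Complex.ofReal_ne_zero.2 hα.ne'
  simp only [Complex.ofReal_one, Complex.ofReal_zero, Complex.one_cpow, one_mul,
    Complex.zero_cpow h0, zero_mul, sub_zero]

end Pool.Agent.Helper21.LT
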