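import Pool.Agent.Helper65.LT.Pa

/-!
PROJECT LT (MP_274814), block F4-F6, piece P4b: the power series at infinity.
-/

namespace Pool.Agent.Helper21.LT

open Pool.Agent.Helper34.LT Pool.Agent.Helper65.LT
open Finset Complex Filter Topology

theorem gam_hasSum' {α β : ℝ} (hab : ∀ p : ℕ, α + β - 1 ≠ p) {y : ℂ} (hy : ‖y‖ < 1) :
    HasSum (fun p : ℕ => (cc (β - 1) p : ℂ) / ((α:ℂ) + β - 1 - p) * y ^ p) (gam α β y) := by
  have h1 : Summable fun p : ℕ => ‖(cc (β - 1) p : ℂ) * y ^ p‖ :=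
    (cc_series (β - 1) hy).summable.norm
  have h2 : Summable fun p : ℕ => (cc (β - 1) p : ℂ) / ((α:ℂ) + β - 1 - p) * y ^ p := by
    refine Summable.of_norm_bounded_eventually_nat h1 ?_
    obtain ⟨N, hN⟩ := exists_nat_ge (|α + β - 1| + 1)
    filter_upwards [Filter.eventually_ge_atTop N] with p hp
    have h3 : (1 : ℝ) ≤ ‖(α:ℂ) + β - 1 - p‖ := by
      have h4 : ((α:ℂ) + β - 1 - p) = ((α + β - 1 - p : ℝ) : ℂ) := by push_cast; ring
      rw [h4, Complex.norm_real, Real.norm_eq_abs]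
      have h5 : (N : ℝ) ≤ p := by exact_mod_cast hp
      have h6 := le_abs_self (α + β - 1)
      rw [abs_of_nonpos (by linarith)]
      linarith
    rw [norm_mul, norm_mul, norm_div]
    refine mul_le_mul_of_nonneg_right ?_ (norm_nonneg _)
    exact div_le_self (norm_nonneg _) h3
  exact h2.hasSum

/-- the coefficients -/
noncomputable def P4b_a (α β : ℝ) (p : ℕ) : ℂ := (cc (β - 1) p : ℂ) / ((α:ℂ) + β - 1 - p)

theorem P4b_main {α β : ℝ} (hab : ∀ p : ℕ, α + β - 1 ≠ p) {y : ℂ} (hy : ‖y‖ < 1) :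
    DifferentiableAt ℂ (gam α β) y ∧
      HasSum (fun p : ℕ => P4b_a α β p * (p * y ^ (p - 1))) (deriv (gam α β) y) := by
  obtain ⟨r, hr1, hr2⟩ := exists_between hy
  have hr0 : 0 < r := lt_of_le_of_lt (norm_nonneg _) hr1
  have hrn : ‖(r : ℂ)‖ = r := by
    rw [Complex.norm_real, Real.norm_eq_abs, abs_of_pos hr0]
  have hu : Summable fun p : ℕ => ‖P4b_a α β p * (r : ℂ) ^ p‖ :=
    (gam_hasSum' hab (by rw [hrn]; exact hr2)).summable.norm
  have hF : ∀ p : ℕ, DifferentiableOn ℂ (fun w : ℂ => P4b_a α β p * w ^ p)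
      (Metric.ball 0 r) := fun p => by fun_prop
  have hle : ∀ (p : ℕ) (w : ℂ), w ∈ Metric.ball (0 : ℂ) r →
      ‖P4b_a α β p * w ^ p‖ ≤ ‖P4b_a α β p * (r : ℂ) ^ p‖ := by
    intro p w hw
    rw [norm_mul, norm_mul, norm_pow, norm_pow, hrn]
    rw [mem_ball_zero_iff] at hw
    exact mul_le_mul_of_nonneg_left (pow_le_pow_left₀ (norm_nonneg _) hw.le _) (norm_nonneg _)
  have hyU : y ∈ Metric.ball (0 : ℂ) r := by
    rw [mem_ball_zero_iff]
    exact hr1
  have h1 := Complex.differentiableOn_tsum_of_summable_norm hu hF Metric.isOpen_ball hle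
  have h2 := Complex.hasSum_deriv_of_summable_norm hu hF Metric.isOpen_ball hle hyU
  refine ⟨h1.differentiableAt (Metric.isOpen_ball.mem_nhds hyU), ?_⟩
  have h3 : (fun p : ℕ => deriv (fun w : ℂ => P4b_a α β p * w ^ p) y) =
      fun p : ℕ => P4b_a α β p * (p * y ^ (p - 1)) := by
    funext p
    exact ((hasDerivAt_pow p y).const_mul _).deriv
  rw [h3] at h2
  exact h2

theorem gam_diff' {α β : ℝ} (hab : ∀ p : ℕ, α + β - 1 ≠ p) :
    DifferentiableOn ℂ (gam α β) (Metric.ball 0 1) := fun y hy =>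
  (P4b_main hab (mem_ball_zero_iff.1 hy)).1.differentiableWithinAt

/-- the first differential equation at infinity: `(α+β-1) gam y - y gam' y = (1-y)^(β-1)` (termwise derivative) -/
theorem gam_deriv' {α β : ℝ} (hab : ∀ p : ℕ, α + β - 1 ≠ p) {y : ℂ} (hy : ‖y‖ < 1) :
    ((α:ℂ) + β - 1) * gam α β y - y * deriv (gam α β) y = (1 - y) ^ ((β:ℂ) - 1) := by
  have h1 := (gam_hasSum' hab hy).mul_left ((α:ℂ) + β - 1)
  have h2 := (P4b_main hab hy).2.mul_left y
  have h3 := h1.sub h2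
  have h4 := cc_series (β - 1) hy
  rw [Complex.ofReal_sub, Complex.ofReal_one] at h4
  refine h3.unique (h4.congr_fun ?_)
  intro p
  have h5 : ((α:ℂ) + β - 1 - p) ≠ 0 := by
    intro h6
    apply hab p
    have h7 : ((α + β - 1 : ℝ) : ℂ) = ((p : ℝ) : ℂ) := by
      push_cast
      linear_combination h6
    exact Complex.ofReal_injective h7
  have h6 : y * (P4b_a α β p * (p * y ^ (p - 1))) = P4b_a α β p * (p * y ^ p) := by
    rcases Nat.eq_zero_or_pos p with rfl | hp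
    · simp
    · have h7 : y ^ p = y ^ (p - 1) * y := by
        rw [← pow_succ, Nat.sub_add_cancel hp]
      rw [h7]
      ring
  rw [h6]
  unfold P4b_a
  field_simp

/-- from `gam_deriv` and the chain rule -/
theorem Gh_hasDerivAt' {α β : ℝ} (hab : ∀ p : ℕ, α + β - 1 ≠ p) {x : ℂ} (hx : x ∈ slitPlane)
    (h1 : 1 < ‖x‖) :
    HasDerivAt (Gh α β) (x ^ ((α:ℂ) + β - 2) * (1 - x⁻¹) ^ ((β:ℂ) - 1)) x := by
  have hx0 : x ≠ 0 := slitPlane_ne_zero hx
  have hy : ‖x⁻¹‖ < 1 := by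
    rw [norm_inv]
    exact inv_lt_one_of_one_lt₀ h1
  have h2 := (hasDerivAt_id x).cpow_const (c := (α:ℂ) + β - 1) hx
  have h3 : HasDerivAt (fun x : ℂ => gam α β x⁻¹) (deriv (gam α β) x⁻¹ * (-(x ^ 2)⁻¹)) x :=
    (P4b_main hab hy).1.hasDerivAt.comp x (hasDerivAt_inv hx0)
  have h4 := h2.mul h3
  refine h4.congr_deriv ?_
  rw [← gam_deriv' hab hy]
  have h5 : x ^ ((α:ℂ) + β - 1 - 1) = x ^ ((α:ℂ) + β - 2) := by
    congr 1
    ring
  have h6 : x ^ ((α:ℂ) + β - 1) = x ^ ((α:ℂ) + β - 2) * x := by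
    have h7 : ((α:ℂ) + β - 1) = ((α:ℂ) + β - 2) + 1 := by ring
    rw [h7, Complex.cpow_add _ _ hx0, Complex.cpow_one]
  simp only [id]
  rw [h5, h6]
  field_simp
  ring

end Pool.Agent.Helper21.LT
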