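import Pool.Agent.Helper65.LT.Pa

/-!
PROJECT LT (MP_274814), block F4-F6, piece P7a: crossing the negative real axis.
-/

namespace Pool.Agent.Helper21.LT

open Pool.Agent.Helper34.LT Pool.Agent.Helper65.LT
open Finset Complex Filter Topology

/-- limits of powers at the negative real axis, from above -/
theorem P7a_up {p : ℂ} (hp : p.re < 0) (hp0 : p.im = 0) (c : ℂ) :
    Tendsto (fun x : ℂ => x ^ c) (𝓝[{z : ℂ | 0 < z.im}] p)
      (𝓝 (exp ((Real.log ‖p‖ + Real.pi * I) * c))) := by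
  have h1 := (Complex.tendsto_log_nhdsWithin_im_nonneg_of_re_neg_of_im_zero hp hp0).mono_left
    (nhdsWithin_mono p fun z (hz : 0 < z.im) => (le_of_lt hz : 0 ≤ z.im))
  have h2 := (Complex.continuous_exp.tendsto _).comp (h1.mul_const c)
  refine h2.congr' ?_
  filter_upwards [self_mem_nhdsWithin] with x hx
  have hx0 : x ≠ 0 := by
    rintro rfl
    exact lt_irrefl (0 : ℝ) (show (0 : ℝ) < (0 : ℂ).im from hx)
  rw [Complex.cpow_def_of_ne_zero hx0]
  rfl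

/-- limits of powers at the negative real axis, from below -/
theorem P7a_down {p : ℂ} (hp : p.re < 0) (hp0 : p.im = 0) (c : ℂ) :
    Tendsto (fun x : ℂ => x ^ c) (𝓝[{z : ℂ | z.im < 0}] p)
      (𝓝 (exp ((Real.log ‖p‖ - Real.pi * I) * c))) := by
  have h1 := Complex.tendsto_log_nhdsWithin_im_neg_of_re_neg_of_im_zero hp hp0
  have h2 := (Complex.continuous_exp.tendsto _).comp (h1.mul_const c)
  refine h2.congr' ?_
  filter_upwards [self_mem_nhdsWithin] with x hx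
  have hx0 : x ≠ 0 := by
    rintro rfl
    exact lt_irrefl _ hx
  rw [Complex.cpow_def_of_ne_zero hx0]
  rfl

theorem P7a_neUp {p : ℂ} (hp0 : p.im = 0) : (𝓝[{z : ℂ | 0 < z.im}] p).NeBot := by
  rw [← mem_closure_iff_nhdsWithin_neBot, Complex.closure_setOfPred_lt_im]
  exact hp0.symm.le

theorem P7a_neDown {p : ℂ} (hp0 : p.im = 0) : (𝓝[{z : ℂ | z.im < 0}] p).NeBot := by
  rw [← mem_closure_iff_nhdsWithin_neBot, Complex.closure_setOfPred_im_lt]
  exact hp0.le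

theorem P7a_gg {α β : ℝ} (hα : 0 < α) {p : ℂ} (hp : p ∈ D0) : ContinuousAt (gg α β) p :=
  ((gg_diff (β := β) hα).differentiableAt (isOpen_D0.mem_nhds hp)).continuousAt

theorem P7a_gam {α β : ℝ} (hab : ∀ p : ℕ, α + β - 1 ≠ p) {p : ℂ} (hp : 1 < ‖p‖) :
    ContinuousAt (fun x : ℂ => gam α β x⁻¹) p := by
  have hp0 : p ≠ 0 := by
    rintro rfl
    rw [norm_zero] at hp
    linarith
  have h1 : p⁻¹ ∈ Metric.ball (0 : ℂ) 1 := by
    rw [mem_ball_zero_iff, norm_inv]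
    exact inv_lt_one_of_one_lt₀ hp
  have h2 : ContinuousAt (gam α β) p⁻¹ :=
    ((gam_diff hab).differentiableAt (Metric.isOpen_ball.mem_nhds h1)).continuousAt
  exact ContinuousAt.comp (f := fun x : ℂ => x⁻¹) h2 (continuousAt_inv₀ hp0)

theorem P7a_norm {p : ℂ} (hp : 1 < ‖p‖) (s : Set ℂ) : ∀ᶠ x in 𝓝[s] p, 1 < ‖x‖ :=
  (continuous_norm.tendsto p).eventually_const_lt hp |>.filter_mono nhdsWithin_le_nhds

theorem cross_neg' {α β : ℝ} (hα : 0 < α) (hab : ∀ p : ℕ, α + β - 1 ≠ p) {A A' : ℂ}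
    (h : ∀ x : ℂ, 0 < x.im → 1 < ‖x‖ →
      x ^ (α:ℂ) * gg α β x = A + exp (-(Real.pi * I * ((β:ℂ) - 1))) * Gh α β x)
    (h' : ∀ x : ℂ, x.im < 0 → 1 < ‖x‖ →
      x ^ (α:ℂ) * gg α β x = A' + exp (Real.pi * I * ((β:ℂ) - 1)) * Gh α β x) :
    A' = exp (-(2 * Real.pi * I * α)) * A := by
  have hp : (-2 : ℂ).re < 0 := by norm_num
  have hp0 : (-2 : ℂ).im = 0 := by norm_num
  have hn : ‖(-2 : ℂ)‖ = 2 := by norm_num
  have hn1 : 1 < ‖(-2 : ℂ)‖ := by rw [hn]; norm_num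
  have hD : (-2 : ℂ) ∈ D0 := by
    change 1 - (-2 : ℂ) ∈ slitPlane
    left
    norm_num
  have hgg := P7a_gg (β := β) hα hD
  have hgam := P7a_gam hab hn1
  have e1 : exp ((Real.log ‖(-2 : ℂ)‖ + Real.pi * I) * (α : ℂ)) * gg α β (-2) -
      exp (-(Real.pi * I * ((β:ℂ) - 1))) *
        (exp ((Real.log ‖(-2 : ℂ)‖ + Real.pi * I) * ((α : ℂ) + β - 1)) * gam α β (-2 : ℂ)⁻¹) = A := by
    have hne := P7a_neUp hp0
    have t1 := (P7a_up hp hp0 (α : ℂ)).mul (hgg.tendsto.mono_left nhdsWithin_le_nhds)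
    have t2 := ((P7a_up hp hp0 ((α : ℂ) + β - 1)).mul
      (hgam.tendsto.mono_left nhdsWithin_le_nhds)).const_mul (exp (-(Real.pi * I * ((β:ℂ) - 1))))
    have t3 := t1.sub t2
    refine tendsto_nhds_unique t3 (tendsto_const_nhds.congr' ?_)
    filter_upwards [self_mem_nhdsWithin, P7a_norm hn1 _] with x hx hx1
    rw [h x hx hx1, Gh]
    ring
  have e2 : exp ((Real.log ‖(-2 : ℂ)‖ - Real.pi * I) * (α : ℂ)) * gg α β (-2) -
      exp (Real.pi * I * ((β:ℂ) - 1)) *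
        (exp ((Real.log ‖(-2 : ℂ)‖ - Real.pi * I) * ((α : ℂ) + β - 1)) * gam α β (-2 : ℂ)⁻¹) = A' := by
    have hne := P7a_neDown hp0
    have t1 := (P7a_down hp hp0 (α : ℂ)).mul (hgg.tendsto.mono_left nhdsWithin_le_nhds)
    have t2 := ((P7a_down hp hp0 ((α : ℂ) + β - 1)).mul
      (hgam.tendsto.mono_left nhdsWithin_le_nhds)).const_mul (exp (Real.pi * I * ((β:ℂ) - 1)))
    have t3 := t1.sub t2
    refine tendsto_nhds_unique t3 (tendsto_const_nhds.congr' ?_)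
    filter_upwards [self_mem_nhdsWithin, P7a_norm hn1 _] with x hx hx1
    rw [h' x hx hx1, Gh]
    ring
  have k1 : exp ((Real.log ‖(-2 : ℂ)‖ - Real.pi * I) * (α : ℂ)) =
      exp (-(2 * Real.pi * I * α)) * exp ((Real.log ‖(-2 : ℂ)‖ + Real.pi * I) * (α : ℂ)) := by
    rw [← Complex.exp_add]
    congr 1
    ring
  have k2 : exp (Real.pi * I * ((β:ℂ) - 1)) *
      exp ((Real.log ‖(-2 : ℂ)‖ - Real.pi * I) * ((α : ℂ) + β - 1)) =
      exp (-(2 * Real.pi * I * α)) * (exp (-(Real.pi * I * ((β:ℂ) - 1))) *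
        exp ((Real.log ‖(-2 : ℂ)‖ + Real.pi * I) * ((α : ℂ) + β - 1))) := by
    rw [← Complex.exp_add, ← Complex.exp_add, ← Complex.exp_add]
    congr 1
    ring
  rw [← e1, ← e2]
  linear_combination (gg α β (-2)) * k1 - (gam α β (-2 : ℂ)⁻¹) * k2

end Pool.Agent.Helper21.LT
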