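import Pool.Agent.Helper21.LT.P7a

/-!
PROJECT LT (MP_274814), block F4-F6, piece P7b: crossing the real axis at the point `2`.
-/

namespace Pool.Agent.Helper21.LT

open Pool.Agent.Helper34.LT Pool.Agent.Helper65.LT
open Finset Complex Filter Topology

theorem P7b_one_sub_up (p : ℂ) :
    Tendsto (fun x : ℂ => 1 - x) (𝓝[{z : ℂ | 0 < z.im}] p) (𝓝[{z : ℂ | z.im < 0}] (1 - p)) := by
  refine tendsto_nhdsWithin_iff.2 ⟨?_, ?_⟩
  · exact ((continuous_const.sub continuous_id).tendsto p).mono_left nhdsWithin_le_nhds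
  · filter_upwards [self_mem_nhdsWithin] with x hx
    have hx' : 0 < x.im := hx
    change (1 - x).im < 0
    rw [Complex.sub_im, Complex.one_im]
    linarith

theorem P7b_one_sub_down (p : ℂ) :
    Tendsto (fun x : ℂ => 1 - x) (𝓝[{z : ℂ | z.im < 0}] p) (𝓝[{z : ℂ | 0 < z.im}] (1 - p)) := by
  refine tendsto_nhdsWithin_iff.2 ⟨?_, ?_⟩
  · exact ((continuous_const.sub continuous_id).tendsto p).mono_left nhdsWithin_le_nhds
  · filter_upwards [self_mem_nhdsWithin] with x hx
    have hx' : x.im < 0 := hx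
    change 0 < (1 - x).im
    rw [Complex.sub_im, Complex.one_im]
    linarith

theorem P7b_Om {x : ℂ} (hx : x.im ≠ 0) : x ∈ Om := by
  refine ⟨Or.inr hx, Or.inr ?_⟩
  rw [Complex.sub_im, Complex.one_im, zero_sub, neg_ne_zero]
  exact hx

theorem cross_pos' {α β : ℝ} (hα : 0 < α) (hβ : 0 < β) (hab : ∀ p : ℕ, α + β - 1 ≠ p) {A A' : ℂ}
    (h : ∀ x : ℂ, 0 < x.im → 1 < ‖x‖ →
      x ^ (α:ℂ) * gg α β x = A + exp (-(Real.pi * I * ((β:ℂ) - 1))) * Gh α β x)
    (h' : ∀ x : ℂ, x.im < 0 → 1 < ‖x‖ →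
      x ^ (α:ℂ) * gg α β x = A' + exp (Real.pi * I * ((β:ℂ) - 1)) * Gh α β x) :
    betaIntegral α β - A' = exp (2 * Real.pi * I * β) * (betaIntegral α β - A) := by
  have h2n : 1 < ‖(2 : ℂ)‖ := by norm_num
  have h20 : (2 : ℂ).im = 0 := by norm_num
  have hq : (1 - (2 : ℂ)) = -1 := by norm_num
  have hp : (1 - (2 : ℂ)).re < 0 := by norm_num
  have hp0 : (1 - (2 : ℂ)).im = 0 := by norm_num
  have hlog : Real.log ‖(1 - (2 : ℂ))‖ = 0 := by
    rw [hq, norm_neg, norm_one, Real.log_one]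
  have hD : (1 - (2 : ℂ)) ∈ D0 := by
    change 1 - (1 - (2 : ℂ)) ∈ slitPlane
    left
    norm_num
  have hgg : ContinuousAt (fun x : ℂ => gg β α (1 - x)) 2 :=
    ContinuousAt.comp (f := fun x : ℂ => 1 - x) (P7a_gg (β := α) hβ hD) (by fun_prop)
  have hslit : (2 : ℂ) ∈ slitPlane := by
    left
    norm_num
  have hGh : ContinuousAt (Gh α β) 2 := by
    unfold Gh
    exact (ContinuousAt.cpow continuousAt_id continuousAt_const hslit).mul (P7a_gam hab h2n)
  have e1 : exp ((Real.log ‖(1 - (2 : ℂ))‖ - Real.pi * I) * (β : ℂ)) * gg β α (1 - 2) +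
      exp (-(Real.pi * I * ((β:ℂ) - 1))) * Gh α β 2 = betaIntegral α β - A := by
    have hne := P7a_neUp h20
    have t1 := ((P7a_down hp hp0 (β : ℂ)).comp (P7b_one_sub_up 2)).mul
      (hgg.tendsto.mono_left nhdsWithin_le_nhds)
    have t2 := (hGh.tendsto.mono_left (nhdsWithin_le_nhds (s := {z : ℂ | 0 < z.im}))).const_mul
      (exp (-(Real.pi * I * ((β:ℂ) - 1))))
    have t3 := t1.add t2
    refine tendsto_nhds_unique t3 (tendsto_const_nhds.congr' ?_)
    filter_upwards [self_mem_nhdsWithin, P7a_norm h2n _] with x hx hx1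
    have hx' : 0 < x.im := hx
    have h3 := gg_add hα hβ (P7b_Om hx'.ne')
    have h4 := h x hx' hx1
    rw [h4] at h3
    change betaIntegral α β - A = (1 - x) ^ (β : ℂ) * gg β α (1 - x) + _
    rw [← h3]
    ring
  have e2 : exp ((Real.log ‖(1 - (2 : ℂ))‖ + Real.pi * I) * (β : ℂ)) * gg β α (1 - 2) +
      exp (Real.pi * I * ((β:ℂ) - 1)) * Gh α β 2 = betaIntegral α β - A' := by
    have hne := P7a_neDown h20
    have t1 := ((P7a_up hp hp0 (β : ℂ)).comp (P7b_one_sub_down 2)).mul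
      (hgg.tendsto.mono_left nhdsWithin_le_nhds)
    have t2 := (hGh.tendsto.mono_left (nhdsWithin_le_nhds (s := {z : ℂ | z.im < 0}))).const_mul
      (exp (Real.pi * I * ((β:ℂ) - 1)))
    have t3 := t1.add t2
    refine tendsto_nhds_unique t3 (tendsto_const_nhds.congr' ?_)
    filter_upwards [self_mem_nhdsWithin, P7a_norm h2n _] with x hx hx1
    have hx' : x.im < 0 := hx
    have h3 := gg_add hα hβ (P7b_Om hx'.ne)
    have h4 := h' x hx' hx1
    rw [h4] at h3
    change betaIntegral α β - A' = (1 - x) ^ (β : ℂ) * gg β α (1 - x) + _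
    rw [← h3]
    ring
  rw [hlog] at e1 e2
  have k1 : exp (((0 : ℝ) + Real.pi * I) * (β : ℂ)) =
      exp (2 * Real.pi * I * β) * exp (((0 : ℝ) - Real.pi * I) * (β : ℂ)) := by
    rw [← Complex.exp_add]
    congr 1
    push_cast
    ring
  have k2 : exp (Real.pi * I * ((β:ℂ) - 1)) =
      exp (2 * Real.pi * I * β) * exp (-(Real.pi * I * ((β:ℂ) - 1))) := by
    have h1 : exp (Real.pi * I * ((β:ℂ) - 1)) = exp (Real.pi * I * β) * exp (-(Real.pi * I)) := by
      rw [← Complex.exp_add]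
      congr 1
      ring
    have h2 : exp (2 * Real.pi * I * β) * exp (-(Real.pi * I * ((β:ℂ) - 1))) =
        exp (Real.pi * I * β) * exp (Real.pi * I) := by
      rw [← Complex.exp_add, ← Complex.exp_add]
      congr 1
      ring
    rw [h1, h2, Complex.exp_neg, Complex.exp_pi_mul_I]
    norm_num
  rw [← e1, ← e2]
  linear_combination (gg β α (1 - 2)) * k1 + (Gh α β 2) * k2

end Pool.Agent.Helper21.LT
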